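import Pool.Agent.Lib.MP_009461_co.Four55

/-!
# The imperfection ratio is at most `7/4` for graphs which are 4-colourable and all of whose
triangle-free induced subgraphs are 3-colourable

The bound `imp(G) ≤ 7/4`, in the form of the frozen statement `S06869` (with `7/4` in place of
`3/2`). By the four colour theorem and the theorem of Grötzsch all planar graphs are in this class.
-/

set_option autoImplicit false

namespace Pool.Agent.Results.MP_009461_co.SevenFourths

theorem result (V : Type) [Fintype V] [DecidableEq V] (G : SimpleGraph V)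
    (h4 : G.Colorable 4)
    (h3 : ∀ X : Set V, (G.induce X).CliqueFree 3 → (G.induce X).Colorable 3)
    (w : V → ℝ) (_hw : ∀ v, 0 ≤ w v) (M : ℝ)
    (hM : ∀ K : Finset V, G.IsClique (K : Set V) → ∑ v ∈ K, w v ≤ M) :
    ∃ y : Finset V → ℝ, (∀ I, 0 ≤ y I) ∧
      (∀ I, y I ≠ 0 → G.IsIndepSet (I : Set V)) ∧
      (∀ v, w v ≤ ∑ I ∈ Finset.univ.filter (fun I => v ∈ I), y I) ∧
      ∑ I, y I ≤ (7 / 4 : ℝ) * M :=
  Pool.Agent.Imp55.main h4 h3 w M hM

end Pool.Agent.Results.MP_009461_co.SevenFourths
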