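import Pool.Agent.Lib.MP_009461_co.Main

/-!
# Graphs of treewidth at most three have imperfection ratio at most `3/2`

The bound `imp(G) ≤ 3/2`, in the form of the frozen statement `S06869`, for every finite graph `G`
which is a subgraph of a graph `H` with an ordering of the vertices such that the earlier
neighbours of every vertex form a clique with at most three elements (partial 3-trees, the graphs
of treewidth at most three). This includes the planar 3-trees and their subgraphs.
-/

set_option autoImplicit false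

namespace Pool.Agent.Results.MP_009461_co.TreewidthThree

theorem result (V : Type) [Fintype V] [DecidableEq V] (G H : SimpleGraph V) (r : V → ℕ)
    (hr : Function.Injective r) (hGH : G ≤ H)
    (hH : ∀ v, H.IsClique {u | H.Adj u v ∧ r u < r v} ∧
      {u | H.Adj u v ∧ r u < r v}.ncard ≤ 3)
    (w : V → ℝ) (hw : ∀ v, 0 ≤ w v) (M : ℝ)
    (hM : ∀ K : Finset V, G.IsClique (K : Set V) → ∑ v ∈ K, w v ≤ M) :
    ∃ y : Finset V → ℝ, (∀ I, 0 ≤ y I) ∧
      (∀ I, y I ≠ 0 → G.IsIndepSet (I : Set V)) ∧
      (∀ v, w v ≤ ∑ I ∈ Finset.univ.filter (fun I => v ∈ I), y I) ∧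
      ∑ I, y I ≤ (3 / 2 : ℝ) * M := by
  refine Pool.Agent.Imp3.main hr hGH (fun v => ?_) w hw M hM
  obtain ⟨h1, h2⟩ := hH v
  have hfin : {u | H.Adj u v ∧ r u < r v}.Finite := Set.toFinite _
  refine ⟨hfin.toFinset, ?_, fun u => by rw [Set.Finite.mem_toFinset]; rfl, ?_⟩
  · rw [← Set.ncard_eq_toFinset_card _ hfin]
    exact h2
  · rw [Set.Finite.coe_toFinset]
    exact h1

end Pool.Agent.Results.MP_009461_co.TreewidthThree
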